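import Mathlib
import Pool.Agent.Helper178.GramLfp

/-!
# A monoid with context-free word problem whose group of units is not finitely generated

The monoid is `⟨o, a, c | (o aⁱ c)² = 1 (i ≥ 0)⟩`. Its units are the products of the involutions
`o aⁱ c`.
-/

set_option autoImplicit false
set_option linter.unnecessarySimpa false
set_option linter.unusedSimpArgs false

namespace Pool.Agent.Results.MP_435286_al.UnitsNotFG

open Pool.Agent.Helper178.Gram

/-- The word problem `{u # v^rev : u, v ∈ A*, u = v in M}` of the monoid `M` with respect to the set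
of generators `A`, a language over the alphabet `A ∪ {#}`, where `#` is `none`. -/
def wordProblem {M : Type} [Monoid M] (A : Set M) : Language (Option A) :=
  {w | ∃ u v : List A, (u.map Subtype.val).prod = (v.map Subtype.val).prod ∧
    w = u.map some ++ none :: v.reverse.map some}

/-- The monoid `M` has context-free word problem: its word problem with respect to some finite
generating set is a context-free language. -/
def HasContextFreeWordProblem (M : Type) [Monoid M] : Prop :=
  ∃ A : Set M, A.Finite ∧ Submonoid.closure A = ⊤ ∧ (wordProblem A).IsContextFree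

/-! ### The monoid -/

/-- The three letters. -/
inductive L | o | a | c
  deriving DecidableEq

/-- The tokens of normal forms: `I i` stands for `o aⁱ`, `K i` for `o aⁱ c`, and `A`, `C` for letters
`a`, `c` outside such factors. -/
inductive Tok | A | C | I (i : ℕ) | K (i : ℕ)
  deriving DecidableEq

open L Tok

/-- The action of a letter on a stack of tokens. -/
def step : List Tok → L → List Tok
  | T, o => I 0 :: T
  | I i :: T, a => I (i + 1) :: T
  | T, a => A :: T
  | I i :: K j :: T, c => if i = j then T else K i :: K j :: T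
  | I i :: T, c => K i :: T
  | T, c => C :: T

/-- The action of a word on a stack of tokens. -/
def run (T : List Tok) (w : List L) : List Tok := w.foldl step T

@[simp] lemma run_nil (T : List Tok) : run T [] = T := rfl
@[simp] lemma run_cons (T : List Tok) (l : L) (w : List L) : run T (l :: w) = run (step T l) w := rfl
lemma run_append (T : List Tok) (u v : List L) : run T (u ++ v) = run (run T u) v := by
  simp [run]

/-- A stack is reduced: no two adjacent tokens `K i`, `K i`. -/
def Red : List Tok → Prop
  | K i :: K j :: T => i ≠ j ∧ Red (K j :: T)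
  | _ :: T => Red T
  | [] => True

@[simp] lemma step_o (T : List Tok) : step T o = I 0 :: T := by cases T <;> rfl
@[simp] lemma step_Ia (i : ℕ) (T : List Tok) : step (I i :: T) a = I (i + 1) :: T := rfl

lemma run_I (T : List Tok) (i j : ℕ) : run (I j :: T) (List.replicate i a) = I (j + i) :: T := by
  induction i generalizing j with
  | zero => rfl
  | succ i ih => rw [List.replicate_succ, run_cons, step_Ia, ih, add_assoc, add_comm 1 i]

/-- The word `o aⁱ c`. -/
def block (i : ℕ) : List L := o :: (List.replicate i a ++ [c])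

lemma run_block (T : List Tok) (i : ℕ) : run T (block i) = step (I i :: T) c := by
  rw [block, run_cons, run_append, step_o, run_I, zero_add]
  rfl

lemma red_tail {t : Tok} {T : List Tok} (h : Red (t :: T)) : Red T := by
  cases t with
  | K i =>
    cases T with
    | nil => trivial
    | cons s T =>
      cases s with
      | K j => exact h.2
      | A => exact h
      | C => exact h
      | I j => exact h
  | A => exact h
  | C => exact h
  | I j => exact h

lemma red_step {T : List Tok} (h : Red T) (l : L) : Red (step T l) := by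
  cases l with
  | o => rw [step_o]; exact h
  | a =>
    rcases T with _ | ⟨t, T⟩
    · trivial
    · cases t with
      | I i => exact h
      | A => exact h
      | C => exact h
      | K i => exact h
  | c =>
    rcases T with _ | ⟨t, T⟩
    · trivial
    · cases t with
      | I i =>
        rcases T with _ | ⟨s, T⟩
        · trivial
        · cases s with
          | K j =>
            have h1 : Red (K j :: T) := h
            change Red (if i = j then T else K i :: K j :: T)
            split_ifs with hij
            · exact red_tail h1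
            · exact ⟨hij, h1⟩
          | A => exact h
          | C => exact h
          | I j => exact h
      | A => exact h
      | C => exact h
      | K i => exact h

lemma red_run {T : List Tok} (h : Red T) (w : List L) : Red (run T w) := by
  induction w generalizing T with
  | nil => exact h
  | cons l w ih => exact ih (red_step h l)

lemma run_block_block {T : List Tok} (h : Red T) (i : ℕ) : run T (block i ++ block i) = T := by
  rw [run_append, run_block, run_block]
  rcases T with _ | ⟨t, T⟩
  · simp [step]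
  · cases t with
    | K j =>
      by_cases hij : i = j
      · subst hij
        rcases T with _ | ⟨s, T⟩
        · simp [step]
        · cases s with
          | K k =>
            have : i ≠ k := h.1
            simp [step, this]
          | A => simp [step]
          | C => simp [step]
          | I k => simp [step]
      · simp [step, hij]
    | A => simp [step]
    | C => simp [step]
    | I j => simp [step]

/-- The defining relations `(o aⁱ c)² = 1`. -/
def rel (u v : FreeMonoid L) : Prop := ∃ i, u = FreeMonoid.ofList (block i ++ block i) ∧ v = 1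

/-- The monoid `⟨o, a, c | (o aⁱ c)² = 1 (i ≥ 0)⟩`. -/
abbrev Mon : Type := (conGen rel).Quotient

/-- The element of the monoid given by a word. -/
def mk (u : List L) : Mon := ((FreeMonoid.ofList u : FreeMonoid L) : Mon)

lemma mk_append (u v : List L) : mk (u ++ v) = mk u * mk v := rfl
lemma mk_nil : mk [] = 1 := rfl
lemma mk_cons (l : L) (v : List L) : mk (l :: v) = mk [l] * mk v := rfl

lemma mk_block (i : ℕ) : mk (block i ++ block i) = 1 :=
  (Con.eq _).2 (ConGen.Rel.of _ _ ⟨i, rfl, rfl⟩)

lemma mk_surj (x : Mon) : ∃ u, mk u = x := by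
  obtain ⟨u, rfl⟩ := Con.mk'_surjective x
  exact ⟨FreeMonoid.toList u, rfl⟩

/-- Words which act in the same way on reduced stacks. -/
def runCon : Con (FreeMonoid L) where
  r u v := ∀ T, Red T → run T (FreeMonoid.toList u) = run T (FreeMonoid.toList v)
  iseqv := ⟨fun _ _ _ => rfl, fun h T hT => (h T hT).symm,
    fun h1 h2 T hT => (h1 T hT).trans (h2 T hT)⟩
  mul' := by
    intro u v u' v' h1 h2 T hT
    rw [FreeMonoid.toList_mul, FreeMonoid.toList_mul, run_append, run_append, h1 T hT]
    exact h2 _ (red_run hT _)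

lemma run_eq {u v : List L} (h : mk u = mk v) {T : List Tok} (hT : Red T) : run T u = run T v := by
  have h1 : conGen rel ≤ runCon := by
    rw [Con.conGen_le]
    rintro x y ⟨i, rfl, rfl⟩ T hT
    simpa using run_block_block hT i
  have h2 : (conGen rel) (FreeMonoid.ofList u) (FreeMonoid.ofList v) := (Con.eq _).1 h
  exact h1 h2 T hT

/-! ### The units -/

/-- No tokens `A` and `C`. -/
def Good (T : List Tok) : Prop := A ∉ T ∧ C ∉ T

lemma good_of_step {T : List Tok} {l : L} (h : Good (step T l)) : Good T := by
  cases l with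
  | o => rw [step_o] at h; simpa [Good] using h
  | a =>
    rcases T with _ | ⟨t, T⟩
    · simp [Good]
    · cases t <;> simpa [Good, step] using h
  | c =>
    rcases T with _ | ⟨t, T⟩
    · simp [Good]
    · cases t with
      | I i =>
        rcases T with _ | ⟨s, T⟩
        · simp [Good]
        · cases s with
          | K j =>
            by_cases hij : i = j <;> simpa [Good, step, hij] using h
          | A => simpa [Good, step] using h
          | C => simpa [Good, step] using h
          | I j => simpa [Good, step] using h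
      | A => simpa [Good, step] using h
      | C => simpa [Good, step] using h
      | K i => simpa [Good, step] using h

lemma good_of_run {T : List Tok} {w : List L} (h : Good (run T w)) : Good T := by
  induction w generalizing T with
  | nil => exact h
  | cons l w ih => exact good_of_step (ih h)

lemma step_append {Z : List Tok} {l : L} (k : ℕ) (B : List Tok) (h : Good (step Z l)) :
    step (Z ++ I k :: B) l = step Z l ++ I k :: B := by
  cases l with
  | o => simp
  | a =>
    rcases Z with _ | ⟨t, Z⟩
    · simp [Good, step] at h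
    · cases t with
      | I i => rfl
      | A => simp [Good, step] at h
      | C => simp [Good, step] at h
      | K i => simp [Good, step] at h
  | c =>
    rcases Z with _ | ⟨t, Z⟩
    · simp [Good, step] at h
    · cases t with
      | I i =>
        rcases Z with _ | ⟨s, Z⟩
        · rfl
        · cases s with
          | K j => by_cases hij : i = j <;> simp [step, hij]
          | A => rfl
          | C => rfl
          | I j => rfl
      | A => simp [Good, step] at h
      | C => simp [Good, step] at h
      | K i => simp [Good, step] at h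

lemma run_append_stack {Z : List Tok} {w : List L} (k : ℕ) (B : List Tok) (h : Good (run Z w)) :
    run (Z ++ I k :: B) w = run Z w ++ I k :: B := by
  induction w generalizing Z with
  | nil => rfl
  | cons l w ih =>
    rw [run_cons, run_cons, step_append k B (good_of_run h)]
    exact ih h

lemma red_of_append {Z B : List Tok} (h : Red (Z ++ B)) : Red Z := by
  induction Z with
  | nil => trivial
  | cons t Z ih =>
    have h1 := ih (red_tail h)
    rcases Z with _ | ⟨s, Z⟩
    · cases t <;> trivial
    · cases t with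
      | K i =>
        cases s with
        | K j => exact ⟨h.1, h1⟩
        | A => exact h1
        | C => exact h1
        | I j => exact h1
      | A => exact h1
      | C => exact h1
      | I j => exact h1

lemma good_append_left {Z B : List Tok} (h : Good (Z ++ B)) : Good Z := by
  constructor
  · intro hA; exact h.1 (List.mem_append_left _ hA)
  · intro hA; exact h.2 (List.mem_append_left _ hA)

lemma good_of_K {T : List Tok} (h : ∀ t ∈ T, ∃ i, t = K i) : Good T := by
  constructor
  · intro hA; obtain ⟨i, hi⟩ := h _ hA; cases hi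
  · intro hA; obtain ⟨i, hi⟩ := h _ hA; cases hi

/-- A unit maps a reduced stack of tokens `K i` to a stack of tokens `K i`. -/
lemma run_unit {w w' : List L} (h1 : mk w * mk w' = 1) (h2 : mk w' * mk w = 1) {T : List Tok}
    (hT : Red T) (hK : ∀ t ∈ T, ∃ i, t = K i) : ∀ t ∈ run T w, ∃ i, t = K i := by
  have e1 : run (run T w) w' = T := by
    rw [← run_append]; exact run_eq (v := []) (by rw [mk_append, h1]; rfl) hT
  have hG : Good (run T w) := by
    apply good_of_run (w := w'); rw [e1]; exact good_of_K hK
  intro t ht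
  cases t with
  | A => exact absurd ht hG.1
  | C => exact absurd ht hG.2
  | K i => exact ⟨i, rfl⟩
  | I k =>
    exfalso
    obtain ⟨Z, B, hZ⟩ := List.append_of_mem ht
    have hR : Red Z := by
      apply red_of_append (B := I k :: B); rw [← hZ]; exact red_run hT w
    have hGZ : Good Z := by
      apply good_append_left (B := I k :: B); rw [← hZ]; exact hG
    have e2 : run (run Z w') w = Z := by
      rw [← run_append]; exact run_eq (v := []) (by rw [mk_append, h2]; rfl) hR
    have hG2 : Good (run Z w') := by
      apply good_of_run (w := w); rw [e2]; exact hGZ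
    have e3 := run_append_stack (w := w') k B hG2
    rw [← hZ, e1] at e3
    obtain ⟨i, hi⟩ := hK (I k) (by rw [e3]; simp)
    cases hi

/-- Bounds for the exponents. -/
def Bd (N k : ℕ) (t : Tok) : Prop :=
  match t with
  | K i => i ≤ N
  | I i => i ≤ k
  | _ => True

lemma Bd.mono {N k : ℕ} {t : Tok} (h : Bd N k t) : Bd N (k + 1) t := by
  cases t with
  | K i => exact h
  | I i => exact Nat.le_succ_of_le h
  | A => trivial
  | C => trivial

lemma bd_step {N k : ℕ} (hk : k ≤ N) {T : List Tok} (h : ∀ t ∈ T, Bd N k t) (l : L) :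
    ∀ t ∈ step T l, Bd N (k + 1) t := by
  cases l with
  | o =>
    rw [step_o]
    intro t ht
    rcases List.mem_cons.1 ht with rfl | ht
    · exact Nat.zero_le _
    · exact (h t ht).mono
  | a =>
    rcases T with _ | ⟨s, T⟩
    · intro t ht
      rcases List.mem_cons.1 ht with rfl | ht
      · trivial
      · simp at ht
    · have hs := h s (by simp)
      have hT : ∀ t ∈ T, Bd N (k + 1) t := fun t ht => (h t (by simp [ht])).mono
      cases s with
      | I i =>
        intro t ht
        rcases List.mem_cons.1 ht with rfl | ht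
        · exact Nat.succ_le_succ hs
        · exact hT t ht
      | A => intro t ht; rcases List.mem_cons.1 ht with rfl | ht; · trivial
             · exact (h t ht).mono
      | C => intro t ht; rcases List.mem_cons.1 ht with rfl | ht; · trivial
             · exact (h t ht).mono
      | K i => intro t ht; rcases List.mem_cons.1 ht with rfl | ht; · trivial
               · exact (h t ht).mono
  | c =>
    rcases T with _ | ⟨s, T⟩
    · intro t ht
      rcases List.mem_cons.1 ht with rfl | ht
      · trivial
      · simp at ht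
    · have hs := h s (by simp)
      have hT : ∀ t ∈ T, Bd N (k + 1) t := fun t ht => (h t (by simp [ht])).mono
      cases s with
      | I i =>
        have hi : i ≤ N := le_trans hs hk
        rcases T with _ | ⟨s', T⟩
        · intro t ht
          rcases List.mem_cons.1 ht with rfl | ht
          · exact hi
          · simp at ht
        · cases s' with
          | K j =>
            intro t ht
            change t ∈ (if i = j then T else K i :: K j :: T) at ht
            split_ifs at ht with hij
            · exact hT t (by simp [ht])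
            · rcases List.mem_cons.1 ht with rfl | ht
              · exact hi
              · exact hT t ht
          | A => intro t ht; rcases List.mem_cons.1 ht with rfl | ht; · exact hi
                 · exact hT t ht
          | C => intro t ht; rcases List.mem_cons.1 ht with rfl | ht; · exact hi
                 · exact hT t ht
          | I j => intro t ht; rcases List.mem_cons.1 ht with rfl | ht; · exact hi
                   · exact hT t ht
      | A => intro t ht; rcases List.mem_cons.1 ht with rfl | ht; · trivial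
             · exact (h t ht).mono
      | C => intro t ht; rcases List.mem_cons.1 ht with rfl | ht; · trivial
             · exact (h t ht).mono
      | K i => intro t ht; rcases List.mem_cons.1 ht with rfl | ht; · trivial
               · exact (h t ht).mono

lemma bd_run {N : ℕ} (w : List L) : ∀ {k : ℕ}, k + w.length ≤ N → ∀ {T : List Tok},
    (∀ t ∈ T, Bd N k t) → ∀ t ∈ run T w, Bd N (k + w.length) t := by
  induction w with
  | nil => intro k _ T h; exact h
  | cons l w ih =>
    intro k hk T h
    rw [List.length_cons] at hk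
    have h1 := bd_step (by omega) h l
    have h2 := ih (k := k + 1) (by omega) h1
    rw [run_cons, List.length_cons]
    intro t ht
    have := h2 t ht
    rwa [show k + (w.length + 1) = k + 1 + w.length by ring]

/-- Reduced stacks of tokens `K i` with `i ≤ N`. -/
def CN (N : ℕ) : Set (List Tok) := {T | Red T ∧ ∀ t ∈ T, ∃ i ≤ N, t = K i}

lemma run_CN {N : ℕ} {w w' : List L} (h1 : mk w * mk w' = 1) (h2 : mk w' * mk w = 1)
    (hw : w.length ≤ N) {T : List Tok} (hT : T ∈ CN N) : run T w ∈ CN N := by
  refine ⟨red_run hT.1 w, ?_⟩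
  have h3 := run_unit h1 h2 hT.1 (fun t ht => by
    obtain ⟨i, _, hi⟩ := hT.2 t ht; exact ⟨i, hi⟩)
  have h4 := bd_run (N := N) w (k := 0) (by omega) (T := T) (by
    intro t ht
    obtain ⟨i, hi, rfl⟩ := hT.2 t ht
    exact hi)
  intro t ht
  obtain ⟨i, rfl⟩ := h3 t ht
  exact ⟨i, h4 _ ht, rfl⟩

/-- The property of mapping `CN N` to itself. -/
def Pres (N : ℕ) (x : Mon) : Prop := ∀ w, mk w = x → ∀ T ∈ CN N, run T w ∈ CN N

lemma pres_mul {N : ℕ} {x y : Mon} (hx : Pres N x) (hy : Pres N y) : Pres N (x * y) := by
  intro w hw T hT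
  obtain ⟨u, hu⟩ := mk_surj x
  obtain ⟨v, hv⟩ := mk_surj y
  have e : mk w = mk (u ++ v) := by rw [hw, mk_append, hu, hv]
  rw [run_eq e hT.1, run_append]
  exact hy v hv _ (hx u hu T hT)

lemma pres_one {N : ℕ} : Pres N 1 := by
  intro w hw T hT
  rw [run_eq (hw.trans mk_nil.symm) hT.1]
  exact hT

lemma pres_of_length {N : ℕ} {w w' : List L} (h1 : mk w * mk w' = 1) (h2 : mk w' * mk w = 1)
    (hw : w.length ≤ N) : Pres N (mk w) := by
  intro v hv T hT
  rw [run_eq hv hT.1]
  exact run_CN h1 h2 hw hT

/-- The group of units is not finitely generated. -/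
lemma not_fg : ¬ Group.FG (Mon)ˣ := by
  intro h
  obtain ⟨S, hS, hfin⟩ := Group.fg_iff.1 h
  choose f hf using mk_surj
  obtain ⟨N, hN⟩ : ∃ N : ℕ, ∀ g ∈ S, (f (g : Mon)).length ≤ N ∧ (f ((g⁻¹ : (Mon)ˣ) : Mon)).length ≤ N := by
    have hb : BddAbove ((fun g : (Mon)ˣ => (f (g : Mon)).length +
        (f ((g⁻¹ : (Mon)ˣ) : Mon)).length) '' S) := (hfin.image _).bddAbove
    obtain ⟨N, hN⟩ := hb
    refine ⟨N, fun g hg => ?_⟩
    have := hN ⟨g, hg, rfl⟩
    simp only at this
    omega
  let H : Subgroup (Mon)ˣ :=
    { carrier := {g | Pres N (g : Mon) ∧ Pres N ((g⁻¹ : (Mon)ˣ) : Mon)}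
      mul_mem' := by
        rintro g h ⟨hg1, hg2⟩ ⟨hh1, hh2⟩
        refine ⟨?_, ?_⟩
        · rw [Units.val_mul]; exact pres_mul hg1 hh1
        · rw [mul_inv_rev, Units.val_mul]; exact pres_mul hh2 hg2
      one_mem' := by
        refine ⟨?_, ?_⟩
        · rw [Units.val_one]; exact pres_one
        · rw [inv_one, Units.val_one]; exact pres_one
      inv_mem' := by
        rintro g ⟨h1, h2⟩
        refine ⟨h2, ?_⟩
        rw [inv_inv]; exact h1 }
  have hle : Subgroup.closure S ≤ H := by
    rw [Subgroup.closure_le]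
    intro g hg
    obtain ⟨n1, n2⟩ := hN g hg
    have e1 : mk (f (g : Mon)) = g := hf _
    have e2 : mk (f ((g⁻¹ : (Mon)ˣ) : Mon)) = ((g⁻¹ : (Mon)ˣ) : Mon) := hf _
    have m1 : mk (f (g : Mon)) * mk (f ((g⁻¹ : (Mon)ˣ) : Mon)) = 1 := by
      rw [e1, e2, Units.mul_inv]
    have m2 : mk (f ((g⁻¹ : (Mon)ˣ) : Mon)) * mk (f (g : Mon)) = 1 := by
      rw [e1, e2, Units.inv_mul]
    refine ⟨?_, ?_⟩
    · have := pres_of_length m1 m2 n1
      rwa [e1] at this
    · have := pres_of_length m2 m1 n2
      rwa [e2] at this
  rw [hS] at hle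
  have hb : mk (block (N + 1)) * mk (block (N + 1)) = 1 := by
    rw [← mk_append, mk_block]
  let p : (Mon)ˣ := ⟨mk (block (N + 1)), mk (block (N + 1)), hb, hb⟩
  have hp : p ∈ H := hle (Subgroup.mem_top p)
  have h3 := hp.1 (block (N + 1)) rfl [] ⟨trivial, by simp⟩
  rw [run_block] at h3
  obtain ⟨i, hi, he⟩ := h3.2 (K (N + 1)) (by simp [step])
  injection he with he
  omega

/-! ### The word problem is context-free: combinatorics -/

/-- Closure properties of the class of the words equal to `1`. -/
structure Clo (E X : List L → Prop) : Prop where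
  nil : E []
  app : ∀ u v, E u → E v → E (u ++ v)
  blk : ∀ u x v, E u → X x → E v → E (o :: (u ++ (x ++ (v ++ [c]))))
  x0 : ∀ u, E u → X (c :: (u ++ [o]))
  xs : ∀ u x v, E u → X x → E v → X (a :: (u ++ (x ++ (v ++ [a]))))

/-- Words `o e₀ a e₁ ⋯ a eᵢ`. -/
def Ic (E : List L → Prop) : ℕ → List L → Prop
  | 0, w => ∃ e, w = o :: e ∧ E e
  | i + 1, w => ∃ w1 e, w = w1 ++ a :: e ∧ Ic E i w1 ∧ E e

/-- Words `e₀ a e₁ ⋯ a eᵢ`. -/
def Tl (E : List L → Prop) : ℕ → List L → Prop
  | 0, w => E w
  | i + 1, w => ∃ f w', w = f ++ a :: w' ∧ E f ∧ Tl E i w'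

lemma Tl_snoc {E : List L → Prop} {e : List L} (he : E e) : ∀ (i : ℕ) (w : List L), Tl E i w →
    Tl E (i + 1) (w ++ a :: e)
  | 0, w, h => ⟨w, e, rfl, h, he⟩
  | i + 1, w, h => by
    obtain ⟨f, w', rfl, hf, hw⟩ := h
    exact ⟨f, w' ++ a :: e, by simp, hf, Tl_snoc he i w' hw⟩

lemma Ic_Tl {E : List L → Prop} : ∀ (i : ℕ) (w : List L), Ic E i w → ∃ w', w = o :: w' ∧ Tl E i w'
  | 0, w, h => h
  | i + 1, w, h => by
    obtain ⟨w1, e, rfl, h1, he⟩ := h
    obtain ⟨w', rfl, h2⟩ := Ic_Tl i w1 h1
    exact ⟨w' ++ a :: e, by simp, Tl_snoc he i w' h2⟩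

lemma merge {E X : List L → Prop} (h : Clo E X) : ∀ (i : ℕ) (u x w : List L), Ic E i u → X x →
    Tl E i w → E (u ++ (x ++ (w ++ [c])))
  | 0, u, x, w, hu, hx, hw => by
    obtain ⟨e, rfl, he⟩ := hu
    exact h.blk e x w he hx hw
  | i + 1, u, x, w, hu, hx, hw => by
    obtain ⟨w1, e, rfl, h1, he⟩ := hu
    obtain ⟨f, w', rfl, hf, hw'⟩ := hw
    have := merge h i w1 (a :: (e ++ (x ++ (f ++ [a])))) w' h1 (h.xs e x f he hx hf) hw'
    simpa using this

/-- Decomposition of a word along a stack. -/
def Sk (E : List L → Prop) : List Tok → List L → Prop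
  | [], u => E u
  | A :: T, u => ∃ u1 u2, u = u1 ++ a :: u2 ∧ Sk E T u1 ∧ E u2
  | C :: T, u => ∃ u1 u2, u = u1 ++ c :: u2 ∧ Sk E T u1 ∧ E u2
  | I i :: T, u => ∃ u1 u2, u = u1 ++ u2 ∧ Sk E T u1 ∧ Ic E i u2
  | K i :: T, u => ∃ u1 u2 e, u = u1 ++ (u2 ++ c :: e) ∧ Sk E T u1 ∧ Ic E i u2 ∧ E e

lemma Ic_app {E X : List L → Prop} (h : Clo E X) {e : List L} (he : E e) {i : ℕ} {w : List L}
    (hw : Ic E i w) : Ic E i (w ++ e) := by
  cases i with
  | zero =>
    obtain ⟨f, rfl, hf⟩ := hw
    exact ⟨f ++ e, by simp, h.app _ _ hf he⟩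
  | succ i =>
    obtain ⟨w1, f, rfl, h1, hf⟩ := hw
    exact ⟨w1, f ++ e, by simp, h1, h.app _ _ hf he⟩

lemma Sk_app {E X : List L → Prop} (h : Clo E X) {e : List L} (he : E e) {T : List Tok} {u : List L}
    (hu : Sk E T u) : Sk E T (u ++ e) := by
  rcases T with _ | ⟨t, T⟩
  · exact h.app _ _ hu he
  · cases t with
    | A =>
      obtain ⟨u1, u2, rfl, h1, h2⟩ := hu
      exact ⟨u1, u2 ++ e, by simp, h1, h.app _ _ h2 he⟩
    | C =>
      obtain ⟨u1, u2, rfl, h1, h2⟩ := hu
      exact ⟨u1, u2 ++ e, by simp, h1, h.app _ _ h2 he⟩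
    | I i =>
      obtain ⟨u1, u2, rfl, h1, h2⟩ := hu
      exact ⟨u1, u2 ++ e, by simp, h1, Ic_app h he h2⟩
    | K i =>
      obtain ⟨u1, u2, f, rfl, h1, h2, hf⟩ := hu
      exact ⟨u1, u2, f ++ e, by simp, h1, h2, h.app _ _ hf he⟩

lemma Sk_step {E X : List L → Prop} (h : Clo E X) {T : List Tok} {u : List L}
    (hu : Sk E T u) (l : L) : Sk E (step T l) (u ++ [l]) := by
  cases l with
  | o => rw [step_o]; exact ⟨u, [o], rfl, hu, [], rfl, h.nil⟩
  | a =>
    rcases T with _ | ⟨t, T⟩
    · exact ⟨u, [], rfl, hu, h.nil⟩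
    · cases t with
      | I i =>
        obtain ⟨u1, u2, rfl, h1, h2⟩ := hu
        exact ⟨u1, u2 ++ [a], by simp, h1, u2, [], rfl, h2, h.nil⟩
      | A => exact ⟨u, [], rfl, hu, h.nil⟩
      | C => exact ⟨u, [], rfl, hu, h.nil⟩
      | K i => exact ⟨u, [], rfl, hu, h.nil⟩
  | c =>
    rcases T with _ | ⟨t, T⟩
    · exact ⟨u, [], rfl, hu, h.nil⟩
    · cases t with
      | I i =>
        obtain ⟨u1, u2, rfl, h1, h2⟩ := hu
        have key : Sk E (K i :: T) (u1 ++ u2 ++ [c]) := ⟨u1, u2, [], by simp, h1, h2, h.nil⟩
        rcases T with _ | ⟨s, T⟩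
        · exact key
        · cases s with
          | K j =>
            change Sk E (if i = j then T else K i :: K j :: T) _
            split_ifs with hij
            · subst hij
              obtain ⟨v1, v2, e, rfl, g1, g2, ge⟩ := h1
              obtain ⟨w', rfl, hw'⟩ := Ic_Tl i u2 h2
              have h3 := merge h i v2 (c :: (e ++ [o])) w' g2 (h.x0 e ge) hw'
              have h4 := Sk_app h h3 g1
              simpa using h4
            · exact key
          | A => exact key
          | C => exact key
          | I j => exact key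
      | A => exact ⟨u, [], rfl, hu, h.nil⟩
      | C => exact ⟨u, [], rfl, hu, h.nil⟩
      | K i => exact ⟨u, [], rfl, hu, h.nil⟩

lemma Sk_run {E X : List L → Prop} (h : Clo E X) (w : List L) : ∀ {T : List Tok} {u : List L},
    Sk E T u → Sk E (run T w) (u ++ w) := by
  induction w with
  | nil => intro T u hu; simpa using hu
  | cons l w ih =>
    intro T u hu
    have := ih (Sk_step h hu l)
    simpa using this

/-! ### The grammar -/

/-- The nonterminal symbols. -/
inductive Nt | S | E | R | X | Y
  deriving DecidableEq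

open Nt Symbol

section Grammar

variable {B : Type} (f : L → B)

/-- The word over the terminal symbols given by a word. -/
def wd (u : List L) : List (Option B) := u.map (fun l => some (f l))

@[simp] lemma wd_nil : wd f [] = [] := rfl
@[simp] lemma wd_cons (l : L) (u : List L) : wd f (l :: u) = some (f l) :: wd f u := rfl
@[simp] lemma wd_append (u v : List L) : wd f (u ++ v) = wd f u ++ wd f v := by simp [wd]

/-- The list of the rules. -/
def ruleList : List (ContextFreeRule (Option B) Nt) :=
  [⟨S, [terminal none]⟩,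
   ⟨S, [terminal (some (f o)), nonterminal S, terminal (some (f o))]⟩,
   ⟨S, [terminal (some (f a)), nonterminal S, terminal (some (f a))]⟩,
   ⟨S, [terminal (some (f c)), nonterminal S, terminal (some (f c))]⟩,
   ⟨S, [nonterminal E, nonterminal S]⟩,
   ⟨S, [nonterminal S, nonterminal R]⟩,
   ⟨E, []⟩,
   ⟨E, [nonterminal E, nonterminal E]⟩,
   ⟨E, [terminal (some (f o)), nonterminal E, nonterminal X, nonterminal E, terminal (some (f c))]⟩,
   ⟨X, [terminal (some (f c)), nonterminal E, terminal (some (f o))]⟩,
   ⟨X, [terminal (some (f a)), nonterminal E, nonterminal X, nonterminal E, terminal (some (f a))]⟩,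
   ⟨R, []⟩,
   ⟨R, [nonterminal R, nonterminal R]⟩,
   ⟨R, [terminal (some (f c)), nonterminal R, nonterminal Y, nonterminal R, terminal (some (f o))]⟩,
   ⟨Y, [terminal (some (f o)), nonterminal R, terminal (some (f c))]⟩,
   ⟨Y, [terminal (some (f a)), nonterminal R, nonterminal Y, nonterminal R,
     terminal (some (f a))]⟩]

open Classical in
/-- The grammar. -/
noncomputable def gram : ContextFreeGrammar (Option B) where
  NT := Nt
  initial := S
  rules := (ruleList f).toFinset

open Classical in
lemma mem_rules (r : ContextFreeRule (Option B) Nt) :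
    (r ∈ ((gram f).rules : Finset (ContextFreeRule (Option B) Nt))) ↔ r ∈ ruleList f :=
  List.mem_toFinset

/-- Derived words of the grammar. -/
def DD (N : Nt) (w : List (Option B)) : Prop := Der (gram f) N w

lemma complete' (N : Nt) (out : List (Symbol (Option B) Nt))
    (hr : (⟨N, out⟩ : ContextFreeRule (Option B) Nt) ∈ ruleList f) {w : List (Option B)}
    (h : Yl (DD f) out w) : DD f N w :=
  complete (g := gram f) (r := (⟨N, out⟩ : ContextFreeRule (Option B) Nt))
    ((mem_rules f _).2 hr) h

/-- The element `aⁱ c o aⁱ`. -/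
def mid (i : ℕ) : Mon := mk (List.replicate i a ++ (c :: (o :: List.replicate i a)))

lemma mid_zero : mid 0 = mk [c] * mk [o] := rfl

lemma mid_succ (i : ℕ) : mid (i + 1) = mk [a] * mid i * mk [a] := by
  have : List.replicate (i + 1) a ++ (c :: (o :: List.replicate (i + 1) a)) =
      [a] ++ (List.replicate i a ++ (c :: (o :: List.replicate i a))) ++ [a] := by
    have h1 : List.replicate (i + 1) a ++ (c :: (o :: List.replicate (i + 1) a)) =
      (a :: List.replicate i a) ++ (c :: (o :: (List.replicate i a ++ [a]))) := by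
      rw [← List.replicate_succ, ← List.replicate_succ']
    rw [h1]
    simp
  rw [mid, this, mk_append, mk_append]
  rfl

lemma mk_mid (i : ℕ) : mk [o] * mid i * mk [c] = 1 := by
  rw [← mk_block i]
  rw [mid, ← mk_append, ← mk_append]
  congr 1
  simp [block]

/-- The interpretation of the nonterminal symbols. -/
def interp : Nt → List (Option B) → Prop
  | S, w => ∃ u v, mk u = mk v ∧ w = wd f u ++ none :: wd f v.reverse
  | E, w => ∃ u, w = wd f u ∧ mk u = 1
  | R, w => ∃ u, w = wd f u.reverse ∧ mk u = 1
  | X, w => ∃ u i, w = wd f u ∧ mk u = mid i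
  | Y, w => ∃ u i, w = wd f u.reverse ∧ mk u = mid i

lemma interp_sound' (r : ContextFreeRule (Option B) Nt) (hr : r ∈ ruleList f) (w : List (Option B))
    (hw : Yl (interp f) r.output w) : interp f r.input w := by
  simp only [ruleList, List.mem_cons, List.not_mem_nil, or_false] at hr
  rcases hr with rfl | rfl | rfl | rfl | rfl | rfl | rfl | rfl | rfl | rfl | rfl | rfl | rfl | rfl |
    rfl | rfl
  · obtain ⟨w', rfl, h⟩ := hw
    have h0 : w' = [] := h
    subst h0
    exact ⟨[], [], rfl, rfl⟩
  · obtain ⟨w', rfl, w1, w2, rfl, ⟨u, v, h, rfl⟩, w3, rfl, h3⟩ := hw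
    obtain rfl : w3 = [] := h3
    refine ⟨o :: u, o :: v, ?_, by simp⟩
    rw [mk_cons o u, mk_cons o v, h]
  · obtain ⟨w', rfl, w1, w2, rfl, ⟨u, v, h, rfl⟩, w3, rfl, h3⟩ := hw
    obtain rfl : w3 = [] := h3
    refine ⟨a :: u, a :: v, ?_, by simp⟩
    rw [mk_cons a u, mk_cons a v, h]
  · obtain ⟨w', rfl, w1, w2, rfl, ⟨u, v, h, rfl⟩, w3, rfl, h3⟩ := hw
    obtain rfl : w3 = [] := h3
    refine ⟨c :: u, c :: v, ?_, by simp⟩
    rw [mk_cons c u, mk_cons c v, h]
  · obtain ⟨w1, w2, rfl, ⟨u', rfl, h1⟩, w3, w4, rfl, ⟨u, v, h, rfl⟩, h4⟩ := hw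
    obtain rfl : w4 = [] := h4
    refine ⟨u' ++ u, v, ?_, by simp⟩
    rw [mk_append, h1, one_mul, h]
  · obtain ⟨w1, w2, rfl, ⟨u, v, h, rfl⟩, w3, w4, rfl, ⟨u', rfl, h1⟩, h4⟩ := hw
    obtain rfl : w4 = [] := h4
    refine ⟨u, u' ++ v, ?_, by simp⟩
    rw [mk_append, h1, one_mul, h]
  · obtain rfl : w = [] := hw
    exact ⟨[], rfl, rfl⟩
  · obtain ⟨w1, w2, rfl, ⟨u, rfl, h1⟩, w3, w4, rfl, ⟨v, rfl, h2⟩, h4⟩ := hw
    obtain rfl : w4 = [] := h4
    exact ⟨u ++ v, by simp, by rw [mk_append, h1, h2, one_mul]⟩
  · obtain ⟨w', rfl, w1, w2, rfl, ⟨u, rfl, h1⟩, w3, w4, rfl, ⟨x, i, rfl, h2⟩, w5, w6, rfl,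
      ⟨v, rfl, h3⟩, w7, rfl, h7⟩ := hw
    obtain rfl : w7 = [] := h7
    refine ⟨[o] ++ (u ++ (x ++ (v ++ [c]))), by simp, ?_⟩
    rw [mk_append, mk_append, mk_append, mk_append, h1, h2, h3, one_mul, one_mul, ← mul_assoc]
    exact mk_mid i
  · obtain ⟨w', rfl, w1, w2, rfl, ⟨u, rfl, h1⟩, w3, rfl, h7⟩ := hw
    obtain rfl : w3 = [] := h7
    refine ⟨[c] ++ (u ++ [o]), 0, by simp, ?_⟩
    rw [mk_append, mk_append, h1, one_mul]
    rfl
  · obtain ⟨w', rfl, w1, w2, rfl, ⟨u, rfl, h1⟩, w3, w4, rfl, ⟨x, i, rfl, h2⟩, w5, w6, rfl,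
      ⟨v, rfl, h3⟩, w7, rfl, h7⟩ := hw
    obtain rfl : w7 = [] := h7
    refine ⟨[a] ++ (u ++ (x ++ (v ++ [a]))), i + 1, by simp, ?_⟩
    rw [mk_append, mk_append, mk_append, mk_append, h1, h2, h3, one_mul, one_mul, ← mul_assoc,
      mid_succ]
  · obtain rfl : w = [] := hw
    exact ⟨[], rfl, rfl⟩
  · obtain ⟨w1, w2, rfl, ⟨u, rfl, h1⟩, w3, w4, rfl, ⟨v, rfl, h2⟩, h4⟩ := hw
    obtain rfl : w4 = [] := h4
    exact ⟨v ++ u, by simp, by rw [mk_append, h1, h2, one_mul]⟩
  · obtain ⟨w', rfl, w1, w2, rfl, ⟨u, rfl, h1⟩, w3, w4, rfl, ⟨x, i, rfl, h2⟩, w5, w6, rfl,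
      ⟨v, rfl, h3⟩, w7, rfl, h7⟩ := hw
    obtain rfl : w7 = [] := h7
    refine ⟨[o] ++ (v ++ (x ++ (u ++ [c]))), by simp, ?_⟩
    rw [mk_append, mk_append, mk_append, mk_append, h1, h2, h3, one_mul, one_mul, ← mul_assoc]
    exact mk_mid i
  · obtain ⟨w', rfl, w1, w2, rfl, ⟨u, rfl, h1⟩, w3, rfl, h7⟩ := hw
    obtain rfl : w3 = [] := h7
    refine ⟨[c] ++ (u ++ [o]), 0, by simp, ?_⟩
    rw [mk_append, mk_append, h1, one_mul]
    rfl
  · obtain ⟨w', rfl, w1, w2, rfl, ⟨u, rfl, h1⟩, w3, w4, rfl, ⟨x, i, rfl, h2⟩, w5, w6, rfl,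
      ⟨v, rfl, h3⟩, w7, rfl, h7⟩ := hw
    obtain rfl : w7 = [] := h7
    refine ⟨[a] ++ (v ++ (x ++ (u ++ [a]))), i + 1, by simp, ?_⟩
    rw [mk_append, mk_append, mk_append, mk_append, h1, h2, h3, one_mul, one_mul, ← mul_assoc,
      mid_succ]

lemma interp_sound : ∀ r ∈ (gram f).rules, ∀ w, Yl (interp f) r.output w → interp f r.input w :=
  fun r hr w hw => interp_sound' f r ((mem_rules f r).1 hr) w hw

/-- Derived words. -/
def DE (u : List L) : Prop := DD f E (wd f u)
/-- Derived words. -/
def DX (u : List L) : Prop := DD f X (wd f u)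
/-- Derived words. -/
def DR (u : List L) : Prop := DD f R (wd f u.reverse)
/-- Derived words. -/
def DY (u : List L) : Prop := DD f Y (wd f u.reverse)
/-- Derived words. -/
def DS (w : List (Option B)) : Prop := DD f S w

lemma clo1 : Clo (DE f) (DX f) where
  nil := complete' f E [] (by simp [ruleList]) rfl
  app := by
    intro u v hu hv
    refine complete' f E [nonterminal E, nonterminal E] (by simp [ruleList]) ⟨wd f u, wd f v, by simp, hu, wd f v, [], by simp, hv, rfl⟩
  blk := by
    intro u x v hu hx hv
    refine complete' f E [terminal (some (f o)), nonterminal E, nonterminal X,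
      nonterminal E, terminal (some (f c))] (by simp [ruleList])
      ⟨_, rfl, wd f u, _, wd_append _ _ _, hu, wd f x, _, wd_append _ _ _, hx, wd f v, _,
        wd_append _ _ _, hv, [], rfl, rfl⟩
  x0 := by
    intro u hu
    refine complete' f X [terminal (some (f c)), nonterminal E,
      terminal (some (f o))] (by simp [ruleList])
      ⟨_, rfl, wd f u, _, wd_append _ _ _, hu, [], rfl, rfl⟩
  xs := by
    intro u x v hu hx hv
    refine complete' f X [terminal (some (f a)), nonterminal E, nonterminal X,
      nonterminal E, terminal (some (f a))] (by simp [ruleList])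
      ⟨_, rfl, wd f u, _, wd_append _ _ _, hu, wd f x, _, wd_append _ _ _, hx, wd f v, _,
        wd_append _ _ _, hv, [], rfl, rfl⟩

lemma clo2 : Clo (DR f) (DY f) where
  nil := complete' f R [] (by simp [ruleList]) rfl
  app := by
    intro u v hu hv
    refine complete' f R [nonterminal R, nonterminal R] (by simp [ruleList])
      ⟨wd f v.reverse, wd f u.reverse, by simp, hv, wd f u.reverse, [], by simp, hu, rfl⟩
  blk := by
    intro u x v hu hx hv
    refine complete' f R [terminal (some (f c)), nonterminal R, nonterminal Y,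
      nonterminal R, terminal (some (f o))] (by simp [ruleList])
      ⟨wd f v.reverse ++ (wd f x.reverse ++ (wd f u.reverse ++ [some (f o)])), by simp,
        wd f v.reverse, _, rfl, hv, wd f x.reverse, _, rfl, hx, wd f u.reverse, _, rfl, hu, [],
        rfl, rfl⟩
  x0 := by
    intro u hu
    refine complete' f Y [terminal (some (f o)), nonterminal R,
      terminal (some (f c))] (by simp [ruleList])
      ⟨wd f u.reverse ++ [some (f c)], by simp, wd f u.reverse, _, rfl, hu, [], rfl, rfl⟩
  xs := by
    intro u x v hu hx hv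
    refine complete' f Y [terminal (some (f a)), nonterminal R, nonterminal Y,
      nonterminal R, terminal (some (f a))] (by simp [ruleList])
      ⟨wd f v.reverse ++ (wd f x.reverse ++ (wd f u.reverse ++ [some (f a)])), by simp,
        wd f v.reverse, _, rfl, hv, wd f x.reverse, _, rfl, hx, wd f u.reverse, _, rfl, hu, [],
        rfl, rfl⟩

lemma ds_none : DS f [none] :=
  complete' f S [terminal none] (by simp [ruleList])
    ⟨[], rfl, rfl⟩

lemma ds_letter (l : L) {t : List (Option B)} (h : DS f t) :
    DS f (some (f l) :: (t ++ [some (f l)])) := by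
  refine complete' f S [terminal (some (f l)), nonterminal S,
    terminal (some (f l))] (by cases l <;> simp [ruleList])
    ⟨_, rfl, t, _, rfl, h, [], rfl, rfl⟩

lemma ds_left {u : List L} {t : List (Option B)} (hu : DE f u) (h : DS f t) :
    DS f (wd f u ++ t) := by
  refine complete' f S [nonterminal E, nonterminal S] (by simp [ruleList]) ⟨wd f u, t, rfl, hu, t, [], by simp, h, rfl⟩

lemma ds_right {u : List L} {t : List (Option B)} (hu : DR f u) (h : DS f t) :
    DS f (t ++ wd f u.reverse) := by
  refine complete' f S [nonterminal S, nonterminal R] (by simp [ruleList]) ⟨t, wd f u.reverse, rfl, h, _, [], by simp, hu, rfl⟩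

lemma ds_Ic : ∀ (i : ℕ) {u v : List L} {t : List (Option B)}, Ic (DE f) i u → Ic (DR f) i v →
    DS f t → DS f (wd f u ++ (t ++ wd f v.reverse))
  | 0, u, v, t, hu, hv, ht => by
    obtain ⟨e, rfl, he⟩ := hu
    obtain ⟨e', rfl, he'⟩ := hv
    have := ds_letter f o (ds_left f he (ds_right f he' ht))
    simpa using this
  | i + 1, u, v, t, hu, hv, ht => by
    obtain ⟨w1, e, rfl, h1, he⟩ := hu
    obtain ⟨w2, e', rfl, h2, he'⟩ := hv
    have := ds_Ic i h1 h2 (ds_letter f a (ds_left f he (ds_right f he' ht)))
    simpa using this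

lemma ds_Sk : ∀ (T : List Tok) {u v : List L} {t : List (Option B)}, Sk (DE f) T u →
    Sk (DR f) T v → DS f t → DS f (wd f u ++ (t ++ wd f v.reverse))
  | [], u, v, t, hu, hv, ht => ds_left f hu (ds_right f hv ht)
  | A :: T, u, v, t, hu, hv, ht => by
    obtain ⟨u1, u2, rfl, h1, h2⟩ := hu
    obtain ⟨v1, v2, rfl, g1, g2⟩ := hv
    have := ds_Sk T h1 g1 (ds_letter f a (ds_left f h2 (ds_right f g2 ht)))
    simpa using this
  | C :: T, u, v, t, hu, hv, ht => by
    obtain ⟨u1, u2, rfl, h1, h2⟩ := hu
    obtain ⟨v1, v2, rfl, g1, g2⟩ := hv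
    have := ds_Sk T h1 g1 (ds_letter f c (ds_left f h2 (ds_right f g2 ht)))
    simpa using this
  | I i :: T, u, v, t, hu, hv, ht => by
    obtain ⟨u1, u2, rfl, h1, h2⟩ := hu
    obtain ⟨v1, v2, rfl, g1, g2⟩ := hv
    have := ds_Sk T h1 g1 (ds_Ic f i h2 g2 ht)
    simpa using this
  | K i :: T, u, v, t, hu, hv, ht => by
    obtain ⟨u1, u2, e, rfl, h1, h2, he⟩ := hu
    obtain ⟨v1, v2, e', rfl, g1, g2, he'⟩ := hv
    have := ds_Sk T h1 g1 (ds_Ic f i h2 g2 (ds_letter f c (ds_left f he (ds_right f he' ht))))
    simpa using this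

lemma language_gram (w : List (Option B)) :
    w ∈ (gram f).language ↔ ∃ u v, mk u = mk v ∧ w = wd f u ++ none :: wd f v.reverse := by
  constructor
  · intro h
    have h1 := sound (interp_sound f) (s := [nonterminal S]) (w := w) h
    obtain ⟨w1, w2, rfl, h2, h3⟩ := h1
    obtain rfl : w2 = [] := h3
    obtain ⟨u, v, h4, rfl⟩ := h2
    exact ⟨u, v, h4, by simp⟩
  · rintro ⟨u, v, h, rfl⟩
    have e : run [] u = run [] v := run_eq h trivial
    have h1 : Sk (DE f) (run [] u) u := by
      simpa using Sk_run (clo1 f) u (T := []) (u := []) (clo1 f).nil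
    have h2 : Sk (DR f) (run [] u) v := by
      rw [e]
      simpa using Sk_run (clo2 f) v (T := []) (u := []) (clo2 f).nil
    have h3 := ds_Sk f _ h1 h2 (ds_none f)
    have e4 : wd f u ++ ([none] ++ wd f v.reverse) = wd f u ++ none :: wd f v.reverse := rfl
    rw [e4] at h3
    exact h3

end Grammar

/-- The three generators. -/
def gens : Set Mon := Set.range (fun l : L => mk [l])

/-- The generator given by a letter. -/
def gen (l : L) : gens := ⟨mk [l], l, rfl⟩

lemma prod_gens (u : List L) : ((u.map gen).map Subtype.val).prod = mk u := by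
  induction u with
  | nil => rfl
  | cons l u ih =>
    rw [List.map_cons, List.map_cons, List.prod_cons, ih, mk_cons]
    rfl

lemma gens_surj (u : List gens) : ∃ v : List L, v.map gen = u := by
  induction u with
  | nil => exact ⟨[], rfl⟩
  | cons x u ih =>
    obtain ⟨v, rfl⟩ := ih
    obtain ⟨x, l, rfl⟩ := x
    exact ⟨l :: v, rfl⟩

lemma wd_map (u : List L) : wd gen u = (u.map gen).map some := by
  simp [wd]

lemma hasCF : HasContextFreeWordProblem Mon := by
  refine ⟨gens, ?_, ?_, gram gen, ?_⟩
  · have : Finite L := ⟨⟨fun l => match l with | o => (0 : Fin 3) | a => 1 | c => 2,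
      fun i => match i with | 0 => o | 1 => a | 2 => c, fun l => by cases l <;> rfl,
      fun i => by fin_cases i <;> rfl⟩⟩
    exact Set.finite_range _
  · rw [Submonoid.eq_top_iff']
    intro x
    obtain ⟨u, rfl⟩ := mk_surj x
    induction u with
    | nil => exact Submonoid.one_mem _
    | cons l u ih =>
      rw [mk_cons]
      exact Submonoid.mul_mem _ (Submonoid.subset_closure ⟨l, rfl⟩) ih
  · ext w
    rw [language_gram]
    constructor
    · rintro ⟨u, v, h, rfl⟩
      refine ⟨u.map gen, v.map gen, ?_, ?_⟩
      · rw [prod_gens, prod_gens, h]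
      · rw [wd_map, wd_map, List.map_reverse]
    · rintro ⟨u, v, h, rfl⟩
      obtain ⟨u, rfl⟩ := gens_surj u
      obtain ⟨v, rfl⟩ := gens_surj v
      rw [prod_gens, prod_gens] at h
      refine ⟨u, v, h, ?_⟩
      rw [wd_map, wd_map, List.map_reverse, List.map_reverse, List.map_reverse]

/-- There is a monoid with context-free word problem whose group of units is not finitely
generated. -/
theorem result : ∃ (M : Type) (_ : Monoid M), HasContextFreeWordProblem M ∧ ¬ Group.FG Mˣ :=
  ⟨Mon, inferInstance, hasCF, not_fg⟩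

end Pool.Agent.Results.MP_435286_al.UnitsNotFG
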